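import Pool.Agent.H41.T1.S5
import Pool.Agent.H85.HYP.EXPO
import Pool.Agent.H20.HYP.PHI

/-!
# T1, EXPK: comparison of exponents
-/

set_option autoImplicit false

namespace Pool.T1.H22

open Finset Pool.HYP Pool.T1

theorem sumLe_le {n : ℕ} (e f : Fin n → Fin n → ℕ) (K : ℕ) (h : ∀ i j, e i j ≤ f i j + K) :
    sumLe e ≤ sumLe f + n * n * K := by
  have h1 : sumLe e ≤ ∑ i : Fin n, ∑ j : Fin n, ((if i ≤ j then f i j else 0) + K) := by
    refine Finset.sum_le_sum fun i _ => Finset.sum_le_sum fun j _ => ?_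
    by_cases hij : i ≤ j
    · rw [if_pos hij, if_pos hij]
      exact h i j
    · rw [if_neg hij, if_neg hij]
      exact Nat.zero_le _
  refine h1.trans (le_of_eq ?_)
  simp only [Finset.sum_add_distrib, Finset.sum_const, Finset.card_univ, Fintype.card_fin,
    smul_eq_mul]
  rw [sumLe]
  ring

theorem sumLt_le {n : ℕ} (e f : Fin n → Fin n → ℕ) (K : ℕ) (h : ∀ i j, e i j ≤ f i j + K) :
    sumLt e ≤ sumLt f + n * n * K := by
  have h1 : sumLt e ≤ ∑ i : Fin n, ∑ j : Fin n, ((if i < j then f i j else 0) + K) := by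
    refine Finset.sum_le_sum fun i _ => Finset.sum_le_sum fun j _ => ?_
    by_cases hij : i < j
    · rw [if_pos hij, if_pos hij]
      exact h i j
    · rw [if_neg hij, if_neg hij]
      exact Nat.zero_le _
  refine h1.trans (le_of_eq ?_)
  simp only [Finset.sum_add_distrib, Finset.sum_const, Finset.card_univ, Fintype.card_fin,
    smul_eq_mul]
  rw [sumLt]
  ring

theorem sum_pairs {n : ℕ} (d : Fin n → ℤ) :
    ∑ i : Fin n, ∑ j : Fin n, (if i ≤ j then d i + d j else 0) = ((n : ℤ) + 1) * ∑ i, d i := by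
  have h1 : ∑ i : Fin n, ∑ j : Fin n, (if i ≤ j then d i + d j else 0) =
      ∑ i : Fin n, ∑ j : Fin n, (if j ≤ i then d i + d j else 0) := by
    rw [Finset.sum_comm]
    refine Finset.sum_congr rfl fun i _ => Finset.sum_congr rfl fun j _ => ?_
    rw [add_comm (d j)]
  have h2 : (∑ i : Fin n, ∑ j : Fin n, (if i ≤ j then d i + d j else 0)) +
      ∑ i : Fin n, ∑ j : Fin n, (if j ≤ i then d i + d j else 0) =
      ∑ i : Fin n, ∑ j : Fin n, ((d i + d j) + if i = j then 2 * d i else 0) := by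
    rw [← Finset.sum_add_distrib]
    refine Finset.sum_congr rfl fun i _ => ?_
    rw [← Finset.sum_add_distrib]
    refine Finset.sum_congr rfl fun j _ => ?_
    rcases lt_trichotomy i j with h | h | h
    · rw [if_pos h.le, if_neg (not_le.2 h), if_neg (ne_of_lt h)]
    · rw [if_pos h.le, if_pos (le_of_eq h.symm), if_pos h, h]
      ring
    · rw [if_neg (not_le.2 h), if_pos h.le, if_neg (ne_of_gt h)]
      ring
  have h3 : ∑ i : Fin n, ∑ j : Fin n, ((d i + d j) + if i = j then 2 * d i else 0) =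
      2 * n * ∑ i, d i + 2 * ∑ i, d i := by
    simp only [Finset.sum_add_distrib, Finset.sum_const, Finset.card_univ, Fintype.card_fin,
      nsmul_eq_mul, Finset.sum_ite_eq, Finset.mem_univ, if_true, ← Finset.mul_sum]
    ring
  rw [← h1, h3] at h2
  linarith

theorem esk {g : ℕ} (d : Fin (2 * g + 1) → ℤ) (h C : ℕ) (hd : ∀ i, 0 ≤ 2 * d i + h)
    (hC : ∑ i, d i ≤ C) :
    ESk d h ≤ (2 * g + 2) * C + (h + 1) * ((2 * g + 1) * (g + 1)) := by
  have h1 : ((ESk d h : ℕ) : ℤ) = (((2 * g + 1 : ℕ) : ℤ) + 1) * (∑ i, d i) +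
      ((h : ℤ) + 1) * (((2 * g + 1) * (g + 1) : ℕ) : ℤ) := by
    rw [← sum_pairs, ← count_le g, ESk, sumLe]
    push_cast
    rw [Finset.mul_sum, ← Finset.sum_add_distrib]
    refine Finset.sum_congr rfl fun i _ => ?_
    rw [Finset.mul_sum, ← Finset.sum_add_distrib]
    refine Finset.sum_congr rfl fun j _ => ?_
    by_cases h4 : i ≤ j
    · simp only [if_pos h4]
      have h5 := hd i
      have h6 := hd j
      rw [mul_one]
      omega
    · simp only [if_neg h4, mul_zero, add_zero]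
  have h2 : ((ESk d h : ℕ) : ℤ) ≤
      (((2 * g + 2) * C + (h + 1) * ((2 * g + 1) * (g + 1)) : ℕ) : ℤ) := by
    rw [h1]
    push_cast
    have h3 : (2 * (g : ℤ) + 1 + 1) * ∑ i, d i ≤ (2 * (g : ℤ) + 2) * C := by
      have : (2 * (g : ℤ) + 1 + 1) = 2 * g + 2 := by ring
      rw [this]
      exact mul_le_mul_of_nonneg_left hC (by positivity)
    linarith
  exact_mod_cast h2

end Pool.T1.H22

namespace Pool.T1

open Pool.T1.H22 Pool.HYP

/-- EXPK: comparison of exponents. -/
theorem expk (hD : DIFKStmt) : EXPKStmt := by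
  intro g C
  refine ⟨8 * C * ((2 * g + 1) * (2 * g + 1)) + (4 * C + 2) * ((2 * g + 1) * (g + 1)) +
    (2 * g + 2) * C, ?_⟩
  intro h d hA hAlw
  obtain ⟨hanti, hdif⟩ := hD g C d hA
  obtain ⟨hE1, hE2, hE3⟩ := Pool.HYP.expo g (h + 4 * C) (muK d) hanti
  have hG : EGk d ≤ EG (muK d) + (2 * g + 1) * (2 * g + 1) * (4 * C) := by
    refine sumLe_le _ _ _ fun i j => ?_
    have h1 := abs_le.1 (hdif i)
    have h2 := abs_le.1 (hdif j)
    omega
  have hS : ESk d h ≤ ES (muK d) (h + 4 * C) + (2 * g + 1) * (2 * g + 1) * 0 := by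
    refine sumLe_le _ _ _ fun i j => ?_
    have h1 := abs_le.1 (hdif i)
    have h2 := abs_le.1 (hdif j)
    omega
  have hU : EU (muK d) ≤ EUk d + (2 * g + 1) * (2 * g + 1) * (4 * C) := by
    refine sumLt_le _ _ _ fun i j => ?_
    have h1 := abs_le.1 (hdif i)
    have h2 := abs_le.1 (hdif j)
    omega
  constructor
  · intro i m hm h2m
    have hP := Pool.HYP.phi g (h + 4 * C) (muK d) hanti hAlw i m hm (by omega)
    nlinarith [hG, hS, hU, hE1, hE3, hP]
  · intro hd
    have h3 := esk d h C hd hA.2.2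
    nlinarith [hG, h3, hU, hE1, hE2]

end Pool.T1
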