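import Pool.Agent.H14.T1.S3
import Pool.Agent.H30.T1.Loc

/-!
# T1, LDT: a good prime, the main computation (part 1: algebra)
-/

set_option autoImplicit false

namespace Pool.T1.H22

open Polynomial Matrix Pool.HYP Pool.TOW Pool.AVS Pool.T1 IsDedekindDomain

/-! ### Valuation rings -/

theorem det_cong {K : Type} [Field K] (O : ValuationSubring K) {ϖ : K} (h0 : ϖ ≠ 0)
    (hϖ : ϖ ∈ O) {n : ℕ} (M M' : Matrix (Fin n) (Fin n) K) (hM : ∀ i j, M i j ∈ O)
    (hM' : ∀ i j, M' i j ∈ O) (h : ∀ i j, (M i j - M' i j) / ϖ ∈ O) :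
    (M.det - M'.det) / ϖ ∈ O := by
  set m : Matrix (Fin n) (Fin n) O := Matrix.of fun i j => ⟨M i j, hM i j⟩ with hm
  set m' : Matrix (Fin n) (Fin n) O := Matrix.of fun i j => ⟨M' i j, hM' i j⟩ with hm'
  have h1 : M = O.subtype.mapMatrix m := by
    ext i j
    rfl
  have h2 : M' = O.subtype.mapMatrix m' := by
    ext i j
    rfl
  have h3 : (Ideal.Quotient.mk (Ideal.span {(⟨ϖ, hϖ⟩ : O)})).mapMatrix m =
      (Ideal.Quotient.mk (Ideal.span {(⟨ϖ, hϖ⟩ : O)})).mapMatrix m' := by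
    ext i j
    show Ideal.Quotient.mk _ (m i j) = Ideal.Quotient.mk _ (m' i j)
    rw [Ideal.Quotient.eq, Ideal.mem_span_singleton]
    refine ⟨⟨(M i j - M' i j) / ϖ, h i j⟩, ?_⟩
    apply Subtype.ext
    show M i j - M' i j = ϖ * ((M i j - M' i j) / ϖ)
    rw [mul_div_cancel₀ _ h0]
  have h4 : Ideal.Quotient.mk (Ideal.span {(⟨ϖ, hϖ⟩ : O)}) m.det =
      Ideal.Quotient.mk (Ideal.span {(⟨ϖ, hϖ⟩ : O)}) m'.det := by
    rw [RingHom.map_det, RingHom.map_det, h3]
  rw [Ideal.Quotient.eq, Ideal.mem_span_singleton] at h4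
  obtain ⟨c, hc⟩ := h4
  have h5 : M.det - M'.det = ϖ * (c : K) := by
    rw [h1, h2, ← RingHom.map_det, ← RingHom.map_det, ← map_sub, hc]
    rfl
  rw [h5, mul_div_cancel_left₀ _ h0]
  exact c.2

theorem det_mem {K : Type} [Field K] (O : ValuationSubring K) {n : ℕ}
    (M : Matrix (Fin n) (Fin n) K) (hM : ∀ i j, M i j ∈ O) : M.det ∈ O := by
  set m : Matrix (Fin n) (Fin n) O := Matrix.of fun i j => ⟨M i j, hM i j⟩ with hm
  have h1 : M = O.subtype.mapMatrix m := by
    ext i j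
    rfl
  rw [h1, ← RingHom.map_det]
  exact m.det.2

theorem cramer_mem {K : Type} [Field K] (O : ValuationSubring K) {n : ℕ}
    (M : Matrix (Fin n) (Fin n) K) (hM : ∀ i j, M i j ∈ O) (hd : UI (O : Set K) M.det)
    (x : Fin n → K) (hx : ∀ i, (M *ᵥ x) i ∈ O) (i : Fin n) : x i ∈ O := by
  set m : Matrix (Fin n) (Fin n) O := Matrix.of fun i j => ⟨M i j, hM i j⟩ with hm
  set v : Fin n → O := fun i => ⟨(M *ᵥ x) i, hx i⟩ with hv
  have h1 : M = O.subtype.mapMatrix m := by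
    ext i j
    rfl
  have h2 : (M.adjugate *ᵥ (M *ᵥ x)) i = ((m.adjugate *ᵥ v) i : K) := by
    have h3 : M.adjugate = O.subtype.mapMatrix m.adjugate := by
      rw [h1, ← RingHom.map_adjugate]
    have h4 : (m.adjugate *ᵥ v) i = ∑ j, m.adjugate i j * v j := rfl
    rw [h4, h3]
    have h5 : (((∑ j, m.adjugate i j * v j : O)) : K) = O.subtype (∑ j, m.adjugate i j * v j) := rfl
    rw [h5, map_sum]
    show ∑ j, O.subtype (m.adjugate i j) * (M *ᵥ x) j = _
    refine Finset.sum_congr rfl fun j _ => ?_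
    rw [map_mul]
    rfl
  have h6 : (M.adjugate *ᵥ (M *ᵥ x)) i = M.det * x i := by
    rw [Matrix.mulVec_mulVec, Matrix.adjugate_mul, Matrix.smul_mulVec, Matrix.one_mulVec]
    rfl
  have h7 : x i = M.det⁻¹ * (M.adjugate *ᵥ (M *ᵥ x)) i := by
    rw [h6, inv_mul_cancel_left₀ hd.1]
  rw [h7, h2]
  exact O.mul_mem _ _ hd.2.2 ((m.adjugate *ᵥ v) i).2


theorem ui_add {K : Type} [Field K] (O : ValuationSubring K) {ϖ x y : K} (hu : Unif O ϖ)
    (hx : UI (O : Set K) x) (hy : y ∈ O) (h : (y - x) / ϖ ∈ O) : UI (O : Set K) y := by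
  have h1 : y⁻¹ ∈ O := by
    by_contra hc
    have h2 : y / ϖ ∈ O := hu.2.2.2 y hy hc
    have h3 : x / ϖ ∈ O := by
      have : x / ϖ = y / ϖ - (y - x) / ϖ := by ring
      rw [this]
      exact sub_mem h2 h
    apply hu.2.2.1
    have h4 : ϖ⁻¹ = x⁻¹ * (x / ϖ) := by
      have := hx.1
      field_simp
    rw [h4]
    exact O.mul_mem _ _ hx.2.2 h3
  refine ⟨fun h0 => ?_, hy, h1⟩
  rw [h0, zero_sub, neg_div] at h
  apply hu.2.2.1
  have h4 : ϖ⁻¹ = x⁻¹ * (x / ϖ) := by
    have := hx.1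
    field_simp
  rw [h4]
  exact O.mul_mem _ _ hx.2.2 ((O.neg_mem _ h) |> fun h => by rwa [neg_neg] at h)

/-- Solving a linear system with a matrix of the form BlkQ. -/
theorem blk_solve {K : Type} [Field K] (O : ValuationSubring K) {ϖ : K} (hu : Unif O ϖ) {m : ℕ}
    (A : Matrix (Fin (m + 1)) (Fin (m + 1)) K) (hA : ∀ i j, A i j ∈ O)
    (hB : BlkQ (O : Set K) ϖ A) (x : Fin (m + 1) → K) (h0 : (A *ᵥ x) 0 ∈ O)
    (hx : ∀ j : Fin m, (A *ᵥ x) j.succ / ϖ ∈ O) (i : Fin (m + 1)) : x i ∈ O := by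
  obtain ⟨b1, b2, b3, b4⟩ := hB
  have hne := hu.1
  set A' : Matrix (Fin (m + 1)) (Fin (m + 1)) K := Matrix.of fun i j =>
    Fin.cases (motive := fun _ => K) (A 0 j) (fun i' => A i'.succ j / ϖ) i with hA'
  set A'' : Matrix (Fin (m + 1)) (Fin (m + 1)) K := Matrix.of fun i j =>
    Fin.cases (motive := fun _ => K) (Fin.cases (motive := fun _ => K) (A 0 0) (fun _ => 0) j)
      (fun i' => A i'.succ j / ϖ) i with hA''
  have e1 : ∀ i j, A' i j ∈ O := by
    intro i j
    refine Fin.cases ?_ (fun i' => ?_) i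
    · exact hA 0 j
    · refine Fin.cases ?_ (fun j' => ?_) j
      · exact (b2 i').2
      · exact b3 i' j'
  have e2 : ∀ i j, A'' i j ∈ O := by
    intro i j
    refine Fin.cases ?_ (fun i' => ?_) i
    · refine Fin.cases ?_ (fun j' => ?_) j
      · exact hA 0 0
      · exact O.zero_mem
    · refine Fin.cases ?_ (fun j' => ?_) j
      · exact (b2 i').2
      · exact b3 i' j'
  have e3 : ∀ i j, (A' i j - A'' i j) / ϖ ∈ O := by
    intro i j
    refine Fin.cases ?_ (fun i' => ?_) i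
    · refine Fin.cases ?_ (fun j' => ?_) j
      · show (A 0 0 - A 0 0) / ϖ ∈ O
        rw [sub_self, zero_div]
        exact O.zero_mem
      · show (A 0 j'.succ - 0) / ϖ ∈ O
        rw [sub_zero]
        exact (b2 j').1
    · show (A i'.succ j / ϖ - A i'.succ j / ϖ) / ϖ ∈ O
      rw [sub_self, zero_div]
      exact O.zero_mem
  have e4 : A''.det = A 0 0 * (Matrix.of fun i j : Fin m => A i.succ j.succ / ϖ).det := by
    rw [Matrix.det_succ_row_zero, Fin.sum_univ_succ]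
    have h1 : ∀ j : Fin m, A'' 0 j.succ = 0 := fun j => rfl
    rw [Finset.sum_eq_zero, add_zero]
    · have h2 : A'' 0 0 = A 0 0 := rfl
      have h3 : A''.submatrix Fin.succ (Fin.succAbove 0) =
          (Matrix.of fun i j : Fin m => A i.succ j.succ / ϖ) := by
        ext i j
        rw [Fin.succAbove_zero]
        rfl
      rw [h2, h3]
      simp
    · intro j _
      rw [h1 j, mul_zero, zero_mul]
  have e5 : UI (O : Set K) A''.det := by
    rw [e4]
    refine ⟨mul_ne_zero b1.1 b4.1, O.mul_mem _ _ b1.2.1 b4.2.1, ?_⟩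
    rw [mul_inv]
    exact O.mul_mem _ _ b1.2.2 b4.2.2
  have e6 : UI (O : Set K) A'.det :=
    ui_add O hu e5 (det_mem O A' e1) (det_cong O hne hu.2.1 A' A'' e1 e2 e3)
  refine cramer_mem O A' e1 e6 x (fun i => ?_) i
  refine Fin.cases ?_ (fun i' => ?_) i
  · exact h0
  · have h7 : (A' *ᵥ x) i'.succ = (A *ᵥ x) i'.succ / ϖ := by
      show ∑ j, A i'.succ j / ϖ * x j = (∑ j, A i'.succ j * x j) / ϖ
      rw [Finset.sum_div]
      refine Finset.sum_congr rfl fun j _ => ?_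
      ring
    rw [h7]
    exact hx i'

/-! ### Residue fields -/

theorem mkl {F R E : Type} [Field F] [CommRing R] [Field E] [Algebra F E] (q : R →+* E)
    (hq : Function.Surjective q) (i : F → R) (hi : ∀ c, q (i c) = algebraMap F E c) (φ : R → F)
    (hadd : ∀ a b, φ (a + b) = φ a + φ b) (hsm : ∀ c a, φ (i c * a) = c * φ a)
    (hker : ∀ a, q a = 0 → φ a = 0) : ∃ l : E →ₗ[F] F, ∀ a, l (q a) = φ a := by
  have h1 : ∀ a b, q a = q b → φ a = φ b := by
    intro a b h
    have h2 : q (a - b) = 0 := by rw [map_sub, h, sub_self]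
    have h3 := hker _ h2
    have h4 : φ a = φ (a - b) + φ b := by rw [← hadd, sub_add_cancel]
    rw [h4, h3, zero_add]
  have h2 : ∀ e, q (Function.surjInv hq e) = e := Function.surjInv_eq hq
  refine ⟨{ toFun := fun e => φ (Function.surjInv hq e), map_add' := ?_, map_smul' := ?_ },
    fun a => ?_⟩
  · intro x y
    rw [← hadd]
    exact h1 _ _ (by rw [map_add, h2, h2, h2])
  · intro c x
    rw [RingHom.id_apply, smul_eq_mul, ← hsm]
    exact h1 _ _ (by rw [map_mul, h2, h2, hi, Algebra.smul_def])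
  · exact h1 _ _ (h2 _)

theorem oneE (hB : BKDStmt) (hS : FSQStmt) {F E R : Type} [Field F] [Field E] [Algebra F E]
    [Finite F] [Finite E] [CommRing R] (h2 : (2 : F) ≠ 0) (q : R →+* E)
    (hq : Function.Surjective q) (i : F → R) (hi : ∀ c, q (i c) = algebraMap F E c) (φ : R → F)
    (hadd : ∀ a b, φ (a + b) = φ a + φ b) (hsm : ∀ c a, φ (i c * a) = c * φ a)
    (hker : ∀ a, q a = 0 → φ a = 0) (hne : ∃ a, φ a ≠ 0) :
    ∃ (d : ℕ) (η : Fin d → R), (∀ w : R, (∀ a, φ (η a * w) = 0) → q w = 0) ∧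
      ∀ (g : ℕ) (Ψ : Matrix (Fin (2 * g)) (Fin (2 * g)) R), q Ψ.det ≠ 0 →
        (Matrix.of fun s t : Fin (2 * g) × Fin d => φ (η s.2 * η t.2 * Ψ s.1 t.1)).det ≠ 0 ∧
        (IsSquare ((-1) ^ (g * d) *
          (Matrix.of fun s t : Fin (2 * g) × Fin d => φ (η s.2 * η t.2 * Ψ s.1 t.1)).det) ↔
          IsSquare (q ((-1) ^ g * Ψ.det))) := by
  obtain ⟨l, hl⟩ := mkl q hq i hi φ hadd hsm hker
  have hl0 : l ≠ 0 := by
    rintro rfl
    obtain ⟨a, ha⟩ := hne
    exact ha (by rw [← hl a]; rfl)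
  set b := Module.finBasis F E with hb
  obtain ⟨c1, c2⟩ := hB F E (Module.finrank F E) b l hl0
  refine ⟨Module.finrank F E, fun a => Function.surjInv hq (b a), ?_, ?_⟩
  · intro w hw
    by_contra hc
    apply hl0
    have h3 : ∀ e : E, l (e * q w) = 0 := by
      intro e
      have h4 : e = ∑ a, b.repr e a • b a := (b.sum_repr e).symm
      rw [h4, Finset.sum_mul, map_sum]
      refine Finset.sum_eq_zero fun a _ => ?_
      rw [smul_mul_assoc, map_smul]
      have h5 := hw a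
      rw [← hl, map_mul, Function.surjInv_eq hq] at h5
      rw [h5, smul_zero]
    apply LinearMap.ext
    intro e
    have h6 := h3 (e * (q w)⁻¹)
    rw [inv_mul_cancel_right₀ hc] at h6
    rw [h6]
    rfl
  · intro g Ψ hΨ
    have h3 : (Matrix.of fun s t : Fin (2 * g) × Fin (Module.finrank F E) =>
        φ (Function.surjInv hq (b s.2) * Function.surjInv hq (b t.2) * Ψ s.1 t.1)) =
        (Matrix.of fun s t : Fin (2 * g) × Fin (Module.finrank F E) =>
          l (b s.2 * b t.2 * (q.mapMatrix Ψ) s.1 t.1)) := by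
      ext s t
      show φ _ = l _
      rw [← hl, q.map_mul, q.map_mul, Function.surjInv_eq hq, Function.surjInv_eq hq]
      rfl
    rw [h3, c2, ← RingHom.map_det]
    set c := (Matrix.of fun i j : Fin (Module.finrank F E) => l (b i * b j)).det with hc
    have h4 : Algebra.norm F (q Ψ.det) ≠ 0 := Algebra.norm_ne_zero_iff.2 hΨ
    refine ⟨mul_ne_zero (pow_ne_zero _ c1) h4, ?_⟩
    have h5 : (-1 : F) ^ (g * Module.finrank F E) * (c ^ (2 * g) * Algebra.norm F (q Ψ.det)) =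
        (c ^ g) ^ 2 * Algebra.norm F (q ((-1) ^ g * Ψ.det)) := by
      have h6 : Algebra.norm F (q ((-1) ^ g * Ψ.det)) =
          (-1 : F) ^ (g * Module.finrank F E) * Algebra.norm F (q Ψ.det) := by
        have h7 : q ((-1) ^ g * Ψ.det) = algebraMap F E ((-1) ^ g) * q Ψ.det := by
          rw [map_mul, map_pow, map_neg, map_one, map_pow, map_neg, map_one]
        rw [h7, map_mul, Algebra.norm_algebraMap, ← pow_mul]
      rw [h6]
      ring
    have h8 : q ((-1) ^ g * Ψ.det) ≠ 0 := by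
      rw [map_mul, map_pow, map_neg, map_one]
      exact mul_ne_zero (pow_ne_zero _ (neg_ne_zero.2 one_ne_zero)) hΨ
    rw [h5, ← hS.2 F E h2 _ h8]
    constructor
    · rintro ⟨r, hr⟩
      refine ⟨r / c ^ g, ?_⟩
      have : c ^ g ≠ 0 := pow_ne_zero _ c1
      field_simp
      linear_combination hr
    · rintro ⟨r, hr⟩
      exact ⟨c ^ g * r, by rw [hr]; ring⟩

end Pool.T1.H22
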