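import Pool.Agent.H29.T1.ZS
import Pool.Agent.H90.T1.ONEK
import Pool.Agent.H29.TOW.ON3
import Pool.Agent.H5.TOW.GAL
import Pool.Agent.H58.TOW.USLM
import Pool.Agent.H69.HYP.TYS

/-!
# T1T, row ZON3: the main step
-/

set_option autoImplicit false

namespace Pool.T1

open Polynomial Matrix Pool.HYP Pool.TOW Pool.AVS IsDedekindDomain

namespace Z22

section

variable {R : Type} [CommRing R] [IsDedekindDomain R] {K : Type} [Field K] [Algebra R K]
  [IsFractionRing R K]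

/-- The classes over `E` to which the argument applies. -/
def WWK (E : Type) [Field E] [Algebra K E] (g : ℕ) (f : R[X]) (ϖ : HeightOneSpectrum R → R)
    (S T' : Finset (HeightOneSpectrum R)) : Set E[X] :=
  {p | IsCoprime p (fkE K E f) ∧ NSq (fkE K E f) p ∧
    ∀ (L : Type) [Field L] (O : ValuationSubring L) (ι : E →+* L) (P : HeightOneSpectrum R),
      AbvV E (vP K P) L O ι →
      (P ∈ S → ∀ (c : O) (γ : O[X]) (x : Ty), OkL O g γ →
        (fkE K E f).map ι = oL O ((X - C c) * γ) →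
        TyL O (ι (algebraMap K E (algebraMap R K (ϖ P)))) c γ x (p.map ι) → x.2 = 0) ∧
      (P ∉ S → UnrV E (vP K P) → P ∉ T' → ∀ fO : O[X], oL O fO = (fkE K E f).map ι →
        USL O fO (p.map ι))}

theorem mul_mem (hCLA : CLAStmt) (hTYM : TYMStmt) (hTYQ : TYQStmt) (hUSLM : USLMStmt)
    {E : Type} [Field E] [Algebra K E] {g : ℕ} (hg : 1 ≤ g) {f : R[X]} (hf : f.Monic)
    {ϖ : HeightOneSpectrum R → R} {S T' : Finset (HeightOneSpectrum R)}
    (hloc : ∀ P ∈ S, ∀ (L : Type) [Field L] (O : ValuationSubring L) (ι : E →+* L),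
      AbvV E (vP K P) L O ι → Loc L O (ι (algebraMap K E (algebraMap R K (ϖ P))))) :
    ∀ p ∈ WWK (K := K) E g f ϖ S T', ∀ q ∈ WWK (K := K) E g f ϖ S T',
      p * q ∈ WWK (K := K) E g f ϖ S T' := by
  rintro p ⟨hp1, hp2, hp3⟩ q ⟨hq1, hq2, hq3⟩
  have hfE : (fkE K E f).Monic := (hf.map _).map _
  refine ⟨hp1.mul_left hq1, One86.nsq_mul hp2 hq2, ?_⟩
  intro L _ O ι P hC
  obtain ⟨hpa, hpb⟩ := hp3 L O ι P hC
  obtain ⟨hqa, hqb⟩ := hq3 L O ι P hC
  refine ⟨fun hPS c γ x hOk hfac hx => ?_, fun hPS hU hr fO hfO => ?_⟩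
  · have hl := hloc P hPS L O ι hC
    have c1 : IsCoprime (p.map ι) (oL O ((X - C c) * γ)) := by
      rw [← hfac]; exact One86.cop_map ι hp1
    have c2 : IsCoprime (q.map ι) (oL O ((X - C c) * γ)) := by
      rw [← hfac]; exact One86.cop_map ι hq1
    have n1 : NSq (oL O ((X - C c) * γ)) (p.map ι) := by
      rw [← hfac]; exact One86.nsq_map ι hfE hp2
    have n2 : NSq (oL O ((X - C c) * γ)) (q.map ι) := by
      rw [← hfac]; exact One86.nsq_map ι hfE hq2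
    obtain ⟨y, hy⟩ := hCLA L O _ hl g c γ hg hOk _ c1
    obtain ⟨z, hz⟩ := hCLA L O _ hl g c γ hg hOk _ c2
    have h1 := hTYM L O _ hl g c γ hg hOk _ _ y z c1 c2 n1 n2 hy hz
    rw [← Polynomial.map_mul] at h1
    have h2 := hTYQ L O _ hl g c γ hg hOk _ x (y + z) hx h1
    rw [h2, Prod.snd_add, hpa hPS c γ y hOk hfac hy, hqa hPS c γ z hOk hfac hz, add_zero]
  · have hfO' : fO.Monic := On3.oL_monic hfO (hfE.map ι)
    rw [Polynomial.map_mul]
    exact (hUSLM L O fO hfO').1 _ _ (hpb hPS hU hr fO hfO) (hqb hPS hU hr fO hfO)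

theorem sq_mem (hCLA : CLAStmt) (hTYS : TYSStmt) (hTYQ : TYQStmt) (hUSLM : USLMStmt)
    {E : Type} [Field E] [Algebra K E] {g : ℕ} (hg : 1 ≤ g) {f : R[X]} (hf : f.Monic)
    {ϖ : HeightOneSpectrum R → R} {S T' : Finset (HeightOneSpectrum R)}
    (hloc : ∀ P ∈ S, ∀ (L : Type) [Field L] (O : ValuationSubring L) (ι : E →+* L),
      AbvV E (vP K P) L O ι → Loc L O (ι (algebraMap K E (algebraMap R K (ϖ P))))) :
    ∀ p ∈ WWK (K := K) E g f ϖ S T', ∀ q s : E[X], IsCoprime s (fkE K E f) →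
      fkE K E f ∣ q - p * s ^ 2 → q ∈ WWK (K := K) E g f ϖ S T' := by
  rintro p ⟨hp1, hp2, hp3⟩ q s hs hd
  have hfE : (fkE K E f).Monic := (hf.map _).map _
  have hq1 : IsCoprime q (fkE K E f) := by
    obtain ⟨w, hw⟩ := hd
    have h1 : IsCoprime (p * s ^ 2) (fkE K E f) := hp1.mul_left hs.pow_left
    have h2 : q = p * s ^ 2 + fkE K E f * w := by linear_combination hw
    rw [h2]
    exact h1.add_mul_left_left w
  refine ⟨hq1, ?_, ?_⟩
  · have h1 : AdjoinRoot.mk (fkE K E f) q = AdjoinRoot.mk (fkE K E f) (p * s ^ 2) :=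
      AdjoinRoot.mk_eq_mk.2 hd
    unfold NSq at hp2 ⊢
    rw [h1, map_mul, map_mul, map_pow, map_pow]
    exact hp2.mul (IsSquare.sq _)
  intro L _ O ι P hC
  obtain ⟨hpa, hpb⟩ := hp3 L O ι P hC
  have hd' : (fkE K E f).map ι ∣ q.map ι - p.map ι * s.map ι ^ 2 := by
    have := Polynomial.map_dvd ι hd
    rwa [Polynomial.map_sub, Polynomial.map_mul, Polynomial.map_pow] at this
  have hs' : IsCoprime (s.map ι) ((fkE K E f).map ι) := One86.cop_map ι hs
  refine ⟨fun hPS c γ x hOk hfac hx => ?_, fun hPS hU hr fO hfO => ?_⟩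
  · have hl := hloc P hPS L O ι hC
    have c1 : IsCoprime (p.map ι) (oL O ((X - C c) * γ)) := by
      rw [← hfac]; exact One86.cop_map ι hp1
    obtain ⟨y, hy⟩ := hCLA L O _ hl g c γ hg hOk _ c1
    have h1 := hTYS L O _ hl g c γ hg hOk _ _ (s.map ι) y (by rw [← hfac]; exact hs')
      (by rw [← hfac]; exact hd') hy
    have h2 := hTYQ L O _ hl g c γ hg hOk _ x y hx h1
    rw [h2, hpa hPS c γ y hOk hfac hy]
  · have hfO' : fO.Monic := On3.oL_monic hfO (hfE.map ι)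
    exact (hUSLM L O fO hfO').2 _ _ (s.map ι) (by rw [hfO]; exact hs') (by rw [hfO]; exact hd')
      (hpb hPS hU hr fO hfO)

theorem abv_comp {E L : Type} [Field E] [Field L] [Algebra K E] {w : ValuationSubring K}
    {O : ValuationSubring L} {ι : E →+* L} (h : AbvV E w L O ι) (σ : E ≃ₐ[K] E) :
    AbvV E w L O (ι.comp (σ : E →+* E)) := by
  have h1 : (ι.comp (σ : E →+* E)).comp (algebraMap K E) = ι.comp (algebraMap K E) := by
    ext x
    simp
  refine ⟨⟨h.1.dvr, h.1.complete, h.1.fin, ?_⟩, ?_⟩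
  · intro z a ha
    obtain ⟨x, hx⟩ := h.1.dense z a ha
    refine ⟨σ.symm x, ?_⟩
    have : (ι.comp (σ : E →+* E)) (σ.symm x) = ι x := by simp
    rw [this]
    exact hx
  · rw [h1]
    exact h.2

theorem gal_mem {E : Type} [Field E] [Algebra K E] {g : ℕ} {f : R[X]} (hf : f.Monic)
    {ϖ : HeightOneSpectrum R → R} {S T' : Finset (HeightOneSpectrum R)} :
    ∀ p ∈ WWK (K := K) E g f ϖ S T', ∀ σ : E ≃ₐ[K] E,
      p.map (σ : E →+* E) ∈ WWK (K := K) E g f ϖ S T' := by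
  rintro p ⟨hp1, hp2, hp3⟩ σ
  have hfE : (fkE K E f).Monic := (hf.map _).map _
  have hfσ : (fkE K E f).map (σ : E →+* E) = fkE K E f := by
    unfold fkE
    rw [Polynomial.map_map]
    congr 1
    ext x
    simp
  refine ⟨?_, ?_, ?_⟩
  · have := One86.cop_map (σ : E →+* E) hp1
    rwa [hfσ] at this
  · have := One86.nsq_map (σ : E →+* E) hfE hp2
    rwa [hfσ] at this
  intro L _ O ι P hC
  have hPσ : ∀ x : K, (ι.comp (σ : E →+* E)) (algebraMap K E x) = ι (algebraMap K E x) := by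
    intro x
    simp
  have hfι : (fkE K E f).map (ι.comp (σ : E →+* E)) = (fkE K E f).map ι := by
    rw [← Polynomial.map_map, hfσ]
  obtain ⟨h1, h2⟩ := hp3 L O (ι.comp (σ : E →+* E)) P (abv_comp hC σ)
  rw [hPσ, hfι] at h1
  rw [hfι] at h2
  have e : (p.map (σ : E →+* E)).map ι = p.map (ι.comp (σ : E →+* E)) := Polynomial.map_map _ _ _
  rw [e]
  exact ⟨h1, h2⟩

/-- The class of a divisor of the twist is in the set `WWK`. -/
theorem sel_mem (hSPC : ZSPCStmt) (hUNC : ZUNCStmt) (hLDA : ZLDAStmt) (hLDB : ZLDBStmt)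
    {O : ValuationSubring K} {π : K} (H : GR R O π)
    {E : Type} [Field E] [Algebra K E] {g : ℕ} (hg : 1 ≤ g) {f : R[X]} (hf : f.Monic)
    (hfn : f.natDegree = 2 * g + 1) (hsm : Smooth f)
    {ϖ : HeightOneSpectrum R → R} {S T' : Finset (HeightOneSpectrum R)} {d : R}
    (hϖ : ∀ P, ϖ P ∈ P.asIdeal ∧ ϖ P ∉ P.asIdeal ^ 2)
    (hSsp : ∀ P ∈ S, SplV E (vP K P))
    (hdS : ∀ P ∈ S, d ∈ P.asIdeal ∧ d ∉ P.asIdeal ^ 2)
    (hdr : ∀ P : HeightOneSpectrum R, P ∉ S → P ∉ T' → d ∉ P.asIdeal) :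
    ∀ p : E[X], IsCoprime p (fkE K E f) → NSq (fkE K E f) p →
      (∀ (L : Type) [Field L] (O : ValuationSubring L) (ι : E →+* L), Cpl E L O ι →
        LSDEK (K := K) ι d f p) → p ∈ WWK (K := K) E g f ϖ S T' := by
  intro p hp hN hL
  refine ⟨hp, hN, ?_⟩
  intro L _ O' ι P hC
  refine ⟨fun hPS c γ x hOk hfac hx => ?_, fun hPS hU hr fO hfO => ?_⟩
  · have h1 := hSPC R K O π H P (ϖ P) (hϖ P).1 (hϖ P).2 E L O' ι hC (hSsp P hPS)
    exact hLDB R K O π H g P (ϖ P) E L O' ι hg ⟨h1.loc, h1.int, h1.mem⟩ f d p c γ x hf hfn hOk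
      hfac (hdS P hPS).1 (hdS P hPS).2 hp hN (hL L O' ι hC.1) hx
  · have h1 := hUNC R K O π H P (ϖ P) (hϖ P).1 (hϖ P).2 E L O' ι hC hU
    exact hLDA R K O π H g P (ϖ P) E L O' ι h1 f d p hf hfn (hsm P) (hdr P hPS hr) hp hN
      (hL L O' ι hC.1) fO hfO

/-- The choice of the set of primes, with given completions. -/
theorem partA (hLINB : LINBStmt) (hINO : INOKStmt) (hUSM : USMKStmt)
    {O : ValuationSubring K} {π : K} {g : ℕ}
    {Ram : Finset (HeightOneSpectrum R)} (hg : 1 ≤ g) (hRec : Rec (R := R) (O := O) π Ram)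
    (D : Dat R O) (h : ℕ) (hok : D.Ok g) (hRam : Ram ⊆ D.T') (f : R[X]) (hf : f ∈ Fam π g D h)
    (ϖ : HeightOneSpectrum R → R)
    (L : HeightOneSpectrum R → Type) [∀ P, Field (L P)] (O' : ∀ P, ValuationSubring (L P))
    (ι : ∀ P, K →+* L P) (hC : ∀ P, CompP P (ϖ P) (L P) (O' P) (ι P)) :
    ∃ S ⊆ D.T, ∃ (c : ∀ P, O' P) (γ : ∀ P, (O' P)[X]),
      (∀ P ∈ D.T, OkL (O' P) g (γ P) ∧ (fk K f).map (ι P) = oL (O' P) ((X - C (c P)) * γ P) ∧
      (∀ h : K[X], IsCoprime h (fk K f) →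
        (USL (O' P) ((X - C (c P)) * γ P) (h.map (ι P)) ↔ US P.asIdeal f h)) ∧
      (∀ h : K[X], IsCoprime h (fk K f) → TRL (O' P) ((X - C (c P)) * γ P) (h.map (ι P)) →
        TR P.asIdeal f h)) ∧
      ∀ α : K[X], IsCoprime α (fk K f) → NSq (fk K f) α →
        (∀ P : HeightOneSpectrum R, P ∉ D.T → US P.asIdeal f α) →
        ∀ x : HeightOneSpectrum R → Ty,
          (∀ P ∈ D.T, TyL (O' P) (ι P (algebraMap R K (ϖ P))) (c P) (γ P) (x P)
            (α.map (ι P))) →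
          (∀ P ∈ S, (x P).2 = 0) → (∀ P ∈ D.T, P ∉ S → (x P).1 = 0) →
          (∀ P : HeightOneSpectrum R, US P.asIdeal f α) ∧ ∀ P ∈ D.T, TR P.asIdeal f α := by
  classical
  have hTYM : TYMStmt := tym unr nmu
  have hTY0 : TY0Stmt := ty0_of unr
  have hTYU : TYUStmt := tyu unr nmu
  have hfm : f.Monic := hf.1.1
  have hfK : (fk K f).Monic := hfm.map _
  -- the local data
  have hloc : ∀ P, ∃ (c : O' P) (γ : (O' P)[X]), P ∈ D.T → OkL (O' P) g γ ∧
      (fk K f).map (ι P) = oL (O' P) ((X - C c) * γ) ∧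
      (∀ h : K[X], IsCoprime h (fk K f) →
        (USL (O' P) ((X - C c) * γ) (h.map (ι P)) ↔ US P.asIdeal f h)) ∧
      (∀ h : K[X], IsCoprime h (fk K f) → TRL (O' P) ((X - C c) * γ) (h.map (ι P)) →
        TR P.asIdeal f h) := by
    intro P
    by_cases hP : P ∈ D.T
    · obtain ⟨c, γ, h1⟩ := ONEK90.locdata hINO (hC P) hg (hok.2.1 P hP) hfm (hf.2.2.1 P hP)
      exact ⟨c, γ, fun _ => h1⟩
    · exact ⟨0, 0, fun h => absurd h hP⟩
  choose c γ hdat using hloc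
  have hcop : ∀ P ∈ D.T, ∀ α : K[X], IsCoprime α (fk K f) →
      IsCoprime (α.map (ι P)) (oL (O' P) ((X - C (c P)) * γ P)) := by
    intro P hP α hα
    rw [← (hdat P hP).2.1]
    exact One86.cop_map (ι P) hα
  have hnsq : ∀ P ∈ D.T, ∀ α : K[X], NSq (fk K f) α →
      NSq (oL (O' P) ((X - C (c P)) * γ P)) (α.map (ι P)) := by
    intro P hP α hα
    rw [← (hdat P hP).2.1]
    exact One86.nsq_map (ι P) hfK hα
  -- the set of vectors of types
  set W : Set (HeightOneSpectrum R → Ty) := {x | ∃ α : K[X],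
    IsCoprime α (fk K f) ∧ NSq (fk K f) α ∧
    (∀ P : HeightOneSpectrum R, P ∉ D.T → US P.asIdeal f α) ∧
    ∀ P ∈ D.T, TyL (O' P) (ι P (algebraMap R K (ϖ P))) (c P) (γ P) (x P) (α.map (ι P))} with hW
  have hadd : ∀ x ∈ W, ∀ y ∈ W, x + y ∈ W := by
    rintro x ⟨α, hα, hNα, hUα, hTα⟩ y ⟨β, hβ, hNβ, hUβ, hTβ⟩
    refine ⟨α * β, hα.mul_left hβ, One86.nsq_mul hNα hNβ, fun P h1 =>
      hUSM R K P.asIdeal f α β (hUα P h1) (hUβ P h1), fun P hP => ?_⟩
    rw [Polynomial.map_mul]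
    exact hTYM _ _ _ (hC P).loc g (c P) (γ P) hg (hdat P hP).1 _ _ (x P) (y P) (hcop P hP α hα)
      (hcop P hP β hβ) (hnsq P hP α hNα) (hnsq P hP β hNβ) (hTα P hP) (hTβ P hP)
  have hiso : ∀ x ∈ W, ∀ y ∈ W, ∑ P ∈ D.T, ((x P).1 * (y P).2 + (x P).2 * (y P).1) = 0 := by
    rintro x ⟨α, hα, hNα, hUα, hTα⟩ y ⟨β, hβ, hNβ, hUβ, hTβ⟩
    refine hRec g D h hg hok hRam f hf ϖ L O' ι (fun P _ => hC P) c γ
      (fun P hP => ⟨(hdat P hP).1, (hdat P hP).2.1⟩) α β x y ?_ hTα hTβ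
    intro δ hδ
    rcases hδ with hδ | hδ
    · rw [hδ]
      exact ⟨hα, hNα, hUα⟩
    · rw [Set.mem_singleton_iff.1 hδ]
      exact ⟨hβ, hNβ, hUβ⟩
  obtain ⟨S, hST, hS⟩ := hLINB (HeightOneSpectrum R) D.T W hadd hiso
  refine ⟨S, hST, c, γ, hdat, ?_⟩
  intro α hα hNα hUα x hx hxS hxT
  have hxW : x ∈ W := ⟨α, hα, hNα, hUα, hx⟩
  have hx0 : ∀ P ∈ D.T, x P = 0 := hS x hxW hxS hxT
  refine ⟨fun P => ?_, fun P hP => ?_⟩
  · by_cases hPT : P ∈ D.T
    · refine ((hdat P hPT).2.2.1 α hα).1 ?_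
      refine (hTYU _ _ _ (hC P).loc g (c P) (γ P) hg (hdat P hPT).1 _ (x P)
        (hcop P hPT α hα) (hnsq P hPT α hNα) (hx P hPT)).2 ?_
      rw [hx0 P hPT]
      rfl
    · exact hUα P hPT
  · refine (hdat P hP).2.2.2 α hα ?_
    refine hTY0 _ _ _ (hC P).loc g (c P) (γ P) hg (hdat P hP).1 _ (hcop P hP α hα)
      (hnsq P hP α hNα) ?_
    have := hx P hP
    rw [hx0 P hP] at this
    exact this

end

end Z22

open Z22 in
/-- ZON3: the main step. -/
theorem zon3 (hLINB : LINBStmt) (hCMP : CMPKStmt) (hINO : INOKStmt) (hIRU : IRUKStmt)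
    (hUSM : USMKStmt) (hIRRK : IRRKStmt) (hSPC : ZSPCStmt) (hUNC : ZUNCStmt)
    (hEXC : ZEXCStmt) (hTYI : ZTYIStmt) (hUDA : ZUDAStmt) (hUDB : ZUDBStmt) (hLDA : ZLDAStmt)
    (hLDB : ZLDBStmt) (hTWS : ZTWSStmt) (hIRS : ZIRSStmt) : ZON3Stmt := by
  classical
  intro R _ _ K _ _ _ O π H g Ram hg hRec D h hok hRam f hf hsm hbad
  have hCLA : CLAStmt := cla unr
  have hTYM : TYMStmt := tym unr nmu
  have hTYU : TYUStmt := tyu unr nmu
  have hTYQ : TYQStmt := tyq unr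
  have hTYS : TYSStmt := tys unr
  have hfm : f.Monic := hf.1.1
  have hfn : f.natDegree = 2 * g + 1 := hf.1.2.1
  have hodd : Odd f.natDegree := by
    rw [hfn]
    exact odd_two_mul_add_one g
  have hfi : Irreducible (fk K f) := (hIRRK R K O π H g D h hg hok f hf).1
  choose ϖ LL hF OO ii hϖ1 hϖ2 hcomp using hCMP R K O π H
  obtain ⟨S, hS, c, γ, hdat, hA⟩ := partA hLINB hINO hUSM hg hRec D h hok hRam f hf ϖ LL OO ii
    hcomp
  refine ⟨S, hS, fun d hd => ?_⟩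
  obtain ⟨hd0, hdS, hdT, hdO⟩ := hd
  intro E _ _ hfin hgal hdeg hTsp hram
  by_contra hne
  -- a nontrivial class
  obtain ⟨p, hp, hNp, hns, hLS⟩ := hTWS R K E f d hfm hd0 hne
  have hpW : p ∈ WWK (K := K) E g f ϖ S D.T' :=
    sel_mem hSPC hUNC hLDA hLDB H hg hfm hfn hsm (fun P => ⟨hϖ1 P, hϖ2 P⟩)
      (fun P hP => hTsp P (hS hP)) hdS
      (fun P hPS hPT' => by
        by_cases hPT : P ∈ D.T
        · exact hdT P hPT hPS
        · exact hdO P hPT hPT') p hp hNp hLS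
  have hloc : ∀ P ∈ S, ∀ (L : Type) [Field L] (O : ValuationSubring L) (ι : E →+* L),
      AbvV E (vP K P) L O ι → Loc L O (ι (algebraMap K E (algebraMap R K (ϖ P)))) := by
    intro P hP L _ O ι hC
    exact (hSPC R K _ π H P (ϖ P) (hϖ1 P) (hϖ2 P) E L O ι hC (hTsp P (hS hP))).loc
  obtain ⟨α, hα, hNα, hnα, hαW⟩ := gal K E H.two hfin hgal hdeg (fk K f) (hfm.map _) hfi
    (by rw [hfm.natDegree_map]; exact hodd) (WWK (K := K) E g f ϖ S D.T')
    (fun p hp => ⟨hp.1, hp.2.1⟩)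
    (mul_mem hCLA hTYM hTYQ uslm hg hfm hloc)
    (sq_mem hCLA hTYS hTYQ uslm hg hfm hloc)
    (gal_mem hfm) ⟨p, hpW, hns⟩
  obtain ⟨-, -, hαc⟩ := hαW
  -- the class is that of a unit outside `S`
  have hUS1 : ∀ P : HeightOneSpectrum R, P ∉ S → US P.asIdeal f α := by
    intro P hPS
    by_cases hirr : Irreducible (md P.asIdeal f)
    · exact hIRU R K P (ϖ P) (LL P) (OO P) (ii P) (hcomp P) g f f α hfm hfn ⟨hfm, hfn, hirr⟩
        (fun i => by rw [sub_self, coeff_zero]; exact P.asIdeal.zero_mem) hα hNα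
    have hPT' : P ∉ D.T' := by
      intro h1
      apply hirr
      have h2 : md P.asIdeal f = md P.asIdeal (D.ρ P) := by
        ext i
        rw [Polynomial.coeff_map, Polynomial.coeff_map, Ideal.Quotient.eq, ← coeff_sub]
        exact hf.2.2.2 P h1 i
      rw [h2]
      exact (hok.2.2.1 P h1).2.2
    have hU : UnrV E (vP K P) := by
      refine (hram P).resolve_right fun h1 => hirr ?_
      exact (hIRS R P d f hfm (by rw [hfn]; omega)).1 h1
    obtain ⟨L, _, O', ι, hC⟩ := hEXC R K O π H P E hfin hgal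
    have hUC := hUNC R K O π H P (ϖ P) (hϖ1 P) (hϖ2 P) E L O' ι hC hU
    obtain ⟨fO, -, -, hfO, -⟩ := hUDA R K O π H P (ϖ P) L O' (ι.comp (algebraMap K E)) hUC f hfm
    have hfO' : oL O' fO = (fkE K E f).map ι := hfO.trans (Polynomial.map_map _ _ _).symm
    have h1 := (hαc L O' ι P hC).2 hPS hU hPT' fO hfO'
    rw [Polynomial.map_map] at h1
    exact hUDB R K O π H P (ϖ P) L O' (ι.comp (algebraMap K E)) hUC f hfm (hsm P) fO hfO α hα h1
  have hcop : ∀ P ∈ D.T, IsCoprime (α.map (ii P)) (oL (OO P) ((X - C (c P)) * γ P)) := by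
    intro P hP
    rw [← (hdat P hP).2.1]
    exact One86.cop_map (ii P) hα
  have hnsq : ∀ P ∈ D.T, NSq (oL (OO P) ((X - C (c P)) * γ P)) (α.map (ii P)) := by
    intro P hP
    rw [← (hdat P hP).2.1]
    exact One86.nsq_map (ii P) (hfm.map _) hNα
  have hty : ∀ P, ∃ x : Ty, P ∈ D.T →
      TyL (OO P) (ii P (algebraMap R K (ϖ P))) (c P) (γ P) x (α.map (ii P)) := by
    intro P
    by_cases hP : P ∈ D.T
    · obtain ⟨x, hx⟩ := hCLA _ _ _ (hcomp P).loc g (c P) (γ P) hg (hdat P hP).1 _ (hcop P hP)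
      exact ⟨x, fun _ => hx⟩
    · exact ⟨0, fun h => absurd h hP⟩
  choose x hx using hty
  obtain ⟨h3, h4⟩ := hA α hα hNα (fun P h1 => hUS1 P fun h5 => h1 (hS h5)) x hx
    (fun P hPS => by
      obtain ⟨L, _, O', ι, hC⟩ := hEXC R K O π H P E hfin hgal
      have hIC := hSPC R K O π H P (ϖ P) (hϖ1 P) (hϖ2 P) E L O' ι hC (hTsp P (hS hPS))
      obtain ⟨c', γ', hOk', hfac', -, -⟩ := ONEK90.locdata hINO hIC hg (hok.2.1 P (hS hPS)) hfm
        (hf.2.2.1 P (hS hPS))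
      have hfac'' : (fkE K E f).map ι = oL O' ((X - C c') * γ') :=
        (Polynomial.map_map _ _ _).trans hfac'
      have c1 : IsCoprime (α.map (ι.comp (algebraMap K E))) (oL O' ((X - C c') * γ')) := by
        rw [← hfac']
        exact One86.cop_map (ι.comp (algebraMap K E)) hα
      obtain ⟨y, hy⟩ := hCLA L O' _ hIC.loc g c' γ' hg hOk' _ c1
      have hy' : TyL O' (ι (algebraMap K E (algebraMap R K (ϖ P)))) c' γ' y
          ((α.map (algebraMap K E)).map ι) := by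
        rw [Polynomial.map_map]
        exact hy
      have h1 := (hαc L O' ι P hC).1 hPS c' γ' y hOk' hfac'' hy'
      have h5 := hTYI R K O π H g P (ϖ P) hg f hfm hfn (LL P) (OO P)
        (ii P) (hcomp P) L O' (ι.comp (algebraMap K E)) hIC (c P) (γ P) c' γ'
        (hdat P (hS hPS)).1 hOk' (hdat P (hS hPS)).2.1 hfac' α (x P) y hα hNα (hx P (hS hPS)) hy
      rw [h5, h1])
    (fun P hPT hPS => (hTYU _ _ _ (hcomp P).loc g (c P) (γ P) hg (hdat P hPT).1 _ (x P)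
      (hcop P hPT) (hnsq P hPT) (hx P hPT)).1 (((hdat P hPT).2.2.1 α hα).2 (hUS1 P hPS)))
  exact hbad ⟨α, hα, hNα, hnα, h3, h4⟩

end Pool.T1
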