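import Pool.Agent.H22.T1.LDTa

/-!
# T1, LDT: a good prime, the main computation (part 2: one prime)
-/

set_option autoImplicit false

namespace Pool.T1.H22

open Polynomial Matrix Pool.HYP Pool.TOW Pool.AVS Pool.T1 IsDedekindDomain

section

variable {F : Type} [Field F] {K : Type} [Field K] [Algebra (RatFunc F) K]
  [FiniteDimensional (RatFunc F) K] [Algebra.IsSeparable (RatFunc F) K]

theorem fin_quot [Finite F] (p : F[X]) (hp : p.Monic) (P : HeightOneSpectrum (RR F K))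
    (h : Abv p P) : Finite (RR F K ⧸ P.asIdeal) := by
  have hf := finite_RR F K
  obtain ⟨n, f, hs⟩ := Module.Finite.exists_fin (R := F[X]) (M := RR F K)
  have hfin : Finite (Polynomial.degreeLT F p.natDegree) :=
    Finite.of_equiv _ (Polynomial.degreeLTEquiv F p.natDegree).symm.toEquiv
  refine Finite.of_surjective (α := Fin n → Polynomial.degreeLT F p.natDegree)
    (fun c => Ideal.Quotient.mk P.asIdeal (∑ i, xR F K (c i : F[X]) * f i)) ?_
  intro e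
  obtain ⟨a, rfl⟩ := Ideal.Quotient.mk_surjective e
  have ha : a ∈ Submodule.span F[X] (Set.range f) := by
    rw [hs]
    trivial
  obtain ⟨c, hc⟩ := (Submodule.mem_span_range_iff_exists_fun F[X]).1 ha
  refine ⟨fun i => ⟨c i %ₘ p, ?_⟩, ?_⟩
  · rw [Polynomial.mem_degreeLT]
    have := Polynomial.degree_modByMonic_lt (c i) hp
    rwa [Polynomial.degree_eq_natDegree hp.ne_zero] at this
  · show Ideal.Quotient.mk P.asIdeal (∑ i, xR F K (c i %ₘ p) * f i) = _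
    rw [Ideal.Quotient.eq, ← hc, ← Finset.sum_sub_distrib]
    refine Ideal.sum_mem _ fun i _ => ?_
    have h1 : c i • f i = xR F K (c i) * f i := rfl
    have h2 : xR F K (c i %ₘ p) * f i - c i • f i = -(xR F K (c i /ₘ p) * f i) * xR F K p := by
      have h3 : xR F K (c i) = xR F K (c i %ₘ p) + xR F K p * xR F K (c i /ₘ p) := by
        rw [← map_mul, ← map_add, Polynomial.modByMonic_add_div]
      rw [h1, h3]
      ring
    rw [h2]
    exact Ideal.mul_mem_left _ _ h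

theorem dataP (hB : BKDStmt) (hS : FSQStmt) [Finite F] (h2 : (2 : F) ≠ 0)
    (P : HeightOneSpectrum (RR F K)) (hfin : Finite (RR F K ⧸ P.asIdeal)) (φ : RR F K → F)
    (hadd : ∀ a b, φ (a + b) = φ a + φ b) (hsm : ∀ c a, φ (xR F K (C c) * a) = c * φ a)
    (hker : ∀ a ∈ P.asIdeal, φ a = 0) (hne : ∃ a, φ a ≠ 0) :
    ∃ (d : ℕ) (η : Fin d → RR F K), (∀ w, (∀ a, φ (η a * w) = 0) → w ∈ P.asIdeal) ∧
      ∀ (g : ℕ) (Ψ : Matrix (Fin (2 * g)) (Fin (2 * g)) (RR F K)), Ψ.det ∉ P.asIdeal →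
        (Matrix.of fun s t : Fin (2 * g) × Fin d => φ (η s.2 * η t.2 * Ψ s.1 t.1)).det ≠ 0 ∧
        (IsSquare ((-1) ^ (g * d) *
          (Matrix.of fun s t : Fin (2 * g) × Fin d => φ (η s.2 * η t.2 * Ψ s.1 t.1)).det) ↔
          ∃ a : RR F K, (-1) ^ g * Ψ.det - a ^ 2 ∈ P.asIdeal) := by
  have := P.isMaximal
  let := Ideal.Quotient.field P.asIdeal
  let := ((Ideal.Quotient.mk P.asIdeal).comp ((xR F K).comp (C : F →+* F[X]))).toAlgebra
  obtain ⟨d, η, h3, h4⟩ := oneE (E := RR F K ⧸ P.asIdeal) hB hS h2 (Ideal.Quotient.mk P.asIdeal)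
    Ideal.Quotient.mk_surjective (fun c => xR F K (C c)) (fun c => rfl) φ hadd hsm
    (fun a ha => hker a (Ideal.Quotient.eq_zero_iff_mem.1 ha)) hne
  refine ⟨d, η, fun w hw => Ideal.Quotient.eq_zero_iff_mem.1 (h3 w hw), fun g Ψ hΨ => ?_⟩
  obtain ⟨h5, h6⟩ := h4 g Ψ fun h => hΨ (Ideal.Quotient.eq_zero_iff_mem.1 h)
  refine ⟨h5, h6.trans ?_⟩
  constructor
  · rintro ⟨r, hr⟩
    obtain ⟨a, rfl⟩ := Ideal.Quotient.mk_surjective r
    refine ⟨a, ?_⟩
    rw [← Ideal.Quotient.eq, hr, map_pow, sq]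
  · rintro ⟨a, ha⟩
    refine ⟨Ideal.Quotient.mk P.asIdeal a, ?_⟩
    rw [← Ideal.Quotient.eq] at ha
    rw [ha, map_pow, sq]

theorem perP (hBK : BKDStmt) (hFS : FSQStmt) (hR : RSDStmt) (hW : WAPStmt) (hSA : SEMAStmt)
    (hSC : SEMCStmt) (hV : VQBStmt) [Finite F] (h2 : (2 : F) ≠ 0) {n g : ℕ}
    (ω : Module.Basis (Fin n) (RatFunc F) K) (p : F[X]) (hp : p.Monic) (hpi : Irreducible p)
    (hG : Good ω p) (ρ : RatFunc F → F) (hρ : Rsd p ρ) (hρI : ∀ x ∈ IP p, ρ x = 0)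
    (hTr : ∀ a ∈ IS (F := F) K p, Algebra.trace (RatFunc F) K a ∈ IP p)
    (P : HeightOneSpectrum (RR F K)) (hP : Abv p P) (ϖ : RR F K)
    (hϖ : ϖ ∈ P.asIdeal ∧ ϖ ∉ P.asIdeal ^ 2)
    (A : Matrix (Fin (2 * g + 1)) (Fin (2 * g + 1)) K)
    (hAB : BlkQ (RP K P) (ϖ : K) A) :
    ∃ (y : K) (d : ℕ) (η : Fin d → RR F K) (Ψ : Matrix (Fin (2 * g)) (Fin (2 * g)) (RR F K)),
      (ϖ : K) * y ∈ RP K P ∧ (∀ Q, Abv p Q → Q ≠ P → y ∈ RP K Q) ∧
      (∀ i j : Fin (2 * g), (y * A i.succ j.succ - (Ψ i j : K)) / (ϖ : K) ∈ RP K P) ∧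
      (∀ w : RR F K, (∀ a, ρ (Algebra.trace (RatFunc F) K ((η a : K) * (w : K) * y)) = 0) →
        w ∈ P.asIdeal) ∧
      (Matrix.of fun s t : Fin (2 * g) × Fin d =>
        ρ (Algebra.trace (RatFunc F) K ((η s.2 : K) * (η t.2 : K) * (Ψ s.1 t.1 : K) * y))).det ≠
          0 ∧
      (IsSquare ((-1) ^ (g * d) * (Matrix.of fun s t : Fin (2 * g) × Fin d =>
        ρ (Algebra.trace (RatFunc F) K
          ((η s.2 : K) * (η t.2 : K) * (Ψ s.1 t.1 : K) * y))).det) ↔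
        SqQ (RP K P) (ϖ : K) ((-1) ^ g * dsc (ϖ : K) A)) := by
  classical
  obtain ⟨⟨O, hO, hU, -⟩, v2, v3⟩ := hV (RR F K) K P ϖ hϖ.1 hϖ.2
  have hmem : ∀ x : K, x ∈ RP K P ↔ x ∈ O := fun x => by rw [← hO]; rfl
  have hU' : Unif O (ϖ : K) := hU
  have h0 : (ϖ : K) ≠ 0 := hU'.1
  obtain ⟨y, hy⟩ := (hW (RR F K) K ((hSA F K).1 p hp.ne_zero).toFinset 1 one_ne_zero).1
    (fun Q => if Q = P then (ϖ : K)⁻¹ else 0)
  have hy1 : y - (ϖ : K)⁻¹ ∈ RP K P := by
    have := hy P (by rw [Set.Finite.mem_toFinset]; exact hP)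
    rwa [if_pos rfl, div_one] at this
  have hy2 : ∀ Q, Abv p Q → Q ≠ P → y ∈ RP K Q := by
    intro Q hQ hQP
    have := hy Q (by rw [Set.Finite.mem_toFinset]; exact hQ)
    rwa [if_neg hQP, div_one, sub_zero] at this
  have hϖm : (ϖ : K) ∈ RP K P := rp_alg ϖ
  have hy3 : (ϖ : K) * y ∈ RP K P := by
    have h1 : (ϖ : K) * y = ϖ * (y - (ϖ : K)⁻¹) + 1 := by
      field_simp
      ring
    rw [h1]
    exact rp_add (rp_mul hϖm hy1) rp_one
  obtain ⟨b1, b2, b3, b4⟩ := hAB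
  choose Ψ hΨ using fun i j : Fin (2 * g) => v3 (A i.succ j.succ / (ϖ : K)) (b3 i j)
  have hΨ' : ∀ i j, (A i.succ j.succ / (ϖ : K) - (Ψ i j : K)) / (ϖ : K) ∈ RP K P := hΨ
  have hy4 : y ∉ IS (F := F) K p := by
    intro h
    have h1 : (ϖ : K)⁻¹ ∈ O := by
      rw [← hmem]
      have h3 : (ϖ : K)⁻¹ = y + (-1) * (y - (ϖ : K)⁻¹) := by ring
      rw [h3]
      refine rp_add (h P hP) (rp_mul ?_ hy1)
      have := rp_alg (K := K) (P := P) (-1 : RR F K)
      rwa [map_neg, map_one] at this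
    exact hU'.2.2.1 h1
  set φ : RR F K → F := fun a => ρ (Algebra.trace (RatFunc F) K ((a : K) * y)) with hφ
  have hadd : ∀ a b, φ (a + b) = φ a + φ b := by
    intro a b
    show ρ (Algebra.trace (RatFunc F) K (((a + b : RR F K) : K) * y)) = _
    have h1 : ((a + b : RR F K) : K) * y = (a : K) * y + (b : K) * y := by
      rw [← add_mul]
      rfl
    rw [h1, map_add, hρ.add]
  have hmulx : ∀ (c : F[X]) (a : RR F K), Algebra.trace (RatFunc F) K
      (((xR F K c * a : RR F K) : K) * y) =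
      rf c * Algebra.trace (RatFunc F) K ((a : K) * y) := by
    intro c a
    have h1 : ((xR F K c * a : RR F K) : K) * y = (rf c) • ((a : K) * y) := by
      rw [Algebra.smul_def, ← mul_assoc]
      rfl
    rw [h1, map_smul, smul_eq_mul]
  have hsm : ∀ c a, φ (xR F K (C c) * a) = c * φ a := by
    intro c a
    show ρ (Algebra.trace (RatFunc F) K (((xR F K (C c) * a : RR F K) : K) * y)) = _
    rw [hmulx, hρ.smul]
  have hker : ∀ a ∈ P.asIdeal, φ a = 0 := by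
    intro a ha
    refine hρI _ (hTr _ fun Q hQ => ?_)
    by_cases hQP : Q = P
    · rw [hQP]
      have h1 : (a : K) * y = ((a : K) / (ϖ : K)) * ((ϖ : K) * y) := by
        field_simp
      rw [h1]
      exact rp_mul ((v2 a).2 ha) hy3
    · exact rp_mul (rp_alg a) (hy2 Q hQ hQP)
  have hne : ∃ a, φ a ≠ 0 := by
    by_contra hc
    push Not at hc
    refine hy4 ((hSC F K n ω p hp hpi hG y).2.2 fun i => (hR F p hp hpi).2 ρ hρ _ fun h => ?_)
    have h1 := hc (xR F K h * ⟨ω i, hG.1 i⟩)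
    have h3 : φ (xR F K h * ⟨ω i, hG.1 i⟩) =
        ρ (rf h * Algebra.trace (RatFunc F) K (y * ω i)) := by
      show ρ (Algebra.trace (RatFunc F) K
        (((xR F K h * ⟨ω i, hG.1 i⟩ : RR F K) : K) * y)) = _
      rw [hmulx, mul_comm y]
    rw [← h3, h1]
  obtain ⟨d, η, e1, e2⟩ := dataP hBK hFS h2 P (fin_quot p hp P hP) φ hadd hsm hker hne
  -- the determinant of `Ψ`
  obtain ⟨D, hD⟩ : ∃ D : RR F K, D = (Matrix.of Ψ).det := ⟨_, rfl⟩
  have hdet : (dsc (ϖ : K) A - (D : K)) / (ϖ : K) ∈ RP K P := by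
    have h1 := det_cong O h0 hU'.2.1 (Matrix.of fun i j : Fin (2 * g) => A i.succ j.succ / (ϖ : K))
      ((Matrix.of Ψ).map (algebraMap (RR F K) K)) (fun i j => (hmem _).1 (b3 i j))
      (fun i j => (hmem _).1 (rp_alg _)) (fun i j => (hmem _).1 (hΨ i j))
    rw [hmem]
    have h3 : ((Matrix.of Ψ).map (algebraMap (RR F K) K)).det =
        algebraMap (RR F K) K D := by
      rw [hD, RingHom.map_det]
      rfl
    rw [h3] at h1
    exact h1
  have hneg : ∀ x ∈ RP K P, -x ∈ RP K P := by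
    intro x hx
    rw [hmem] at hx ⊢
    exact neg_mem hx
  have hsg : ((-1 : K) ^ g) ∈ RP K P := by
    rw [hmem]
    exact pow_mem (neg_mem (one_mem O)) g
  have hdP : (Matrix.of Ψ).det ∉ P.asIdeal := by
    rw [← hD]
    intro hc
    have h1 := (v2 _).2 hc
    have h3 : dsc (ϖ : K) A / (ϖ : K) ∈ RP K P := by
      have h4 : dsc (ϖ : K) A / (ϖ : K) = (dsc (ϖ : K) A - (D : K)) / (ϖ : K) +
          (D : K) / (ϖ : K) := by ring
      rw [h4]
      exact rp_add hdet h1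
    apply hU'.2.2.1
    rw [← hmem]
    have h5 : (ϖ : K)⁻¹ = (dsc (ϖ : K) A)⁻¹ * (dsc (ϖ : K) A / (ϖ : K)) := by
      have := b4.1
      rw [div_eq_mul_inv, ← mul_assoc, inv_mul_cancel₀, one_mul]
      exact this
    rw [h5]
    exact rp_mul b4.2.2 h3
  obtain ⟨e3, e4⟩ := e2 g (Matrix.of Ψ) hdP
  refine ⟨y, d, η, Matrix.of Ψ, hy3, hy2, ?_, ?_, ?_, ?_⟩
  · intro i j
    have h1 : (y * A i.succ j.succ - ((Matrix.of Ψ i j : RR F K) : K)) / (ϖ : K) =
        (A i.succ j.succ / (ϖ : K) - (Ψ i j : K)) / (ϖ : K) +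
          (y - (ϖ : K)⁻¹) * (A i.succ j.succ / (ϖ : K)) := by
      show (y * A i.succ j.succ - (Ψ i j : K)) / (ϖ : K) = _
      field_simp
      ring
    rw [h1]
    exact rp_add (hΨ' i j) (rp_mul hy1 (b3 i j))
  · intro w hw
    exact e1 w fun a => hw a
  · exact e3
  · refine e4.trans ?_
    rw [← hD]
    constructor
    · rintro ⟨a, ha⟩
      refine ⟨(a : K), rp_alg a, ?_⟩
      have h1 := (v2 _).2 ha
      have h3 : algebraMap (RR F K) K ((-1) ^ g * D - a ^ 2) =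
          (-1) ^ g * (D : K) - (a : K) ^ 2 := by
        rw [map_sub, map_mul, map_pow, map_neg, map_one, map_pow]
        rfl
      rw [h3] at h1
      have h4 : ((-1) ^ g * dsc (ϖ : K) A - (a : K) ^ 2) / (ϖ : K) =
          (-1) ^ g * ((dsc (ϖ : K) A - (D : K)) / (ϖ : K)) +
          ((-1) ^ g * (D : K) - (a : K) ^ 2) / (ϖ : K) := by ring
      rw [h4]
      exact rp_add (rp_mul hsg hdet) h1
    · rintro ⟨z, hz, hz2⟩
      obtain ⟨a, ha⟩ := v3 z hz
      refine ⟨a, (v2 _).1 ?_⟩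
      have h3 : algebraMap (RR F K) K ((-1) ^ g * D - a ^ 2) =
          (-1) ^ g * (D : K) - (a : K) ^ 2 := by
        rw [map_sub, map_mul, map_pow, map_neg, map_one, map_pow]
        rfl
      rw [h3]
      have ha' : (z - (a : K)) / (ϖ : K) ∈ RP K P := ha
      have h4 : ((-1) ^ g * (D : K) - (a : K) ^ 2) / (ϖ : K) =
          -((-1) ^ g * ((dsc (ϖ : K) A - (D : K)) / (ϖ : K))) +
          (((-1) ^ g * dsc (ϖ : K) A - z ^ 2) / (ϖ : K) +
            (z - (a : K)) / (ϖ : K) * (z + (a : K))) := by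
        field_simp
        ring
      show ((-1) ^ g * (D : K) - (a : K) ^ 2) / (ϖ : K) ∈ RP K P
      rw [h4]
      exact rp_add (hneg _ (rp_mul hsg hdet)) (rp_add hz2 (rp_mul ha' (rp_add hz (rp_alg a))))

end

end Pool.T1.H22
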